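import Pool.Agent.W792.GK.Stm

/-!
# GK-T1: translation invariant operators with continuous symbol on `ℓ²(ℤ^ι)`
-/

namespace Pool.Agent.W196.GKT1

open MeasureTheory UnitAddTorus Pool.Agent.W792.GK
open scoped ComplexConjugate

noncomputable section

local instance : MeasureSpace UnitAddCircle := ⟨AddCircle.haarAddCircle⟩

local instance : Measure.IsAddHaarMeasure (volume : Measure UnitAddCircle) :=
  inferInstanceAs (Measure.IsAddHaarMeasure AddCircle.haarAddCircle)

local instance : IsProbabilityMeasure (volume : Measure UnitAddCircle) :=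
  inferInstanceAs (IsProbabilityMeasure AddCircle.haarAddCircle)

variable {ι : Type} [Fintype ι]

lemma norm_mul_le (K : C(UnitAddTorus ι, ℝ)) (f : (Lp ℂ 2 (volume : Measure (UnitAddTorus ι)))) (t : UnitAddTorus ι) :
    ‖(K t : ℂ) * f t‖ ≤ ‖K‖ * ‖f t‖ := by
  rw [norm_mul, Complex.norm_real]
  gcongr
  exact K.norm_coe_le_norm t

lemma memLp_mul (K : C(UnitAddTorus ι, ℝ)) (f : (Lp ℂ 2 (volume : Measure (UnitAddTorus ι)))) :
    MemLp (fun t => (K t : ℂ) * f t) 2 (volume : Measure (UnitAddTorus ι)) := by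
  refine (Lp.memLp f).of_le_mul (c := ‖K‖) ?_ (Filter.Eventually.of_forall (norm_mul_le K f))
  exact ((Complex.continuous_ofReal.comp K.continuous).aestronglyMeasurable).mul
    (Lp.aestronglyMeasurable f)

/-- Multiplication by `K` on `L²`. -/
def mulL (K : C(UnitAddTorus ι, ℝ)) : (Lp ℂ 2 (volume : Measure (UnitAddTorus ι))) →ₗ[ℂ] (Lp ℂ 2 (volume : Measure (UnitAddTorus ι))) where
  toFun f := (memLp_mul K f).toLp _
  map_add' f g := by
    ext1
    filter_upwards [(memLp_mul K (f + g)).coeFn_toLp, (memLp_mul K f).coeFn_toLp,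
      (memLp_mul K g).coeFn_toLp, Lp.coeFn_add f g,
      Lp.coeFn_add ((memLp_mul K f).toLp _) ((memLp_mul K g).toLp _)] with t h1 h2 h3 h4 h5
    rw [h1, h5, Pi.add_apply, h2, h3, h4, Pi.add_apply, mul_add]
  map_smul' c f := by
    ext1
    filter_upwards [(memLp_mul K (c • f)).coeFn_toLp, (memLp_mul K f).coeFn_toLp,
      Lp.coeFn_smul c f, Lp.coeFn_smul c ((memLp_mul K f).toLp _)] with t h1 h2 h3 h4
    rw [h1, RingHom.id_apply, h4, Pi.smul_apply, h2, h3, Pi.smul_apply, smul_eq_mul, smul_eq_mul]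
    ring

lemma mulL_coe (K : C(UnitAddTorus ι, ℝ)) (f : (Lp ℂ 2 (volume : Measure (UnitAddTorus ι)))) :
    mulL K f =ᵐ[volume] fun t => (K t : ℂ) * f t := (memLp_mul K f).coeFn_toLp

lemma norm_mulL_le (K : C(UnitAddTorus ι, ℝ)) (f : (Lp ℂ 2 (volume : Measure (UnitAddTorus ι)))) : ‖mulL K f‖ ≤ ‖K‖ * ‖f‖ := by
  apply Lp.norm_le_mul_norm_of_ae_le_mul
  filter_upwards [mulL_coe K f] with t ht
  rw [ht]
  exact norm_mul_le K f t

/-- Multiplication by `K` on `L²`, continuous version. -/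
def mulC (K : C(UnitAddTorus ι, ℝ)) : (Lp ℂ 2 (volume : Measure (UnitAddTorus ι))) →L[ℂ] (Lp ℂ 2 (volume : Measure (UnitAddTorus ι))) := (mulL K).mkContinuous ‖K‖ (norm_mulL_le K)

lemma mulC_coe (K : C(UnitAddTorus ι, ℝ)) (f : (Lp ℂ 2 (volume : Measure (UnitAddTorus ι)))) :
    mulC K f =ᵐ[volume] fun t => (K t : ℂ) * f t := mulL_coe K f

lemma mulC_symm (K : C(UnitAddTorus ι, ℝ)) (f g : (Lp ℂ 2 (volume : Measure (UnitAddTorus ι)))) :
    inner ℂ (mulC K f) g = inner ℂ f (mulC K g) := by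
  rw [L2.inner_def, L2.inner_def]
  apply integral_congr_ae
  filter_upwards [mulC_coe K f, mulC_coe K g] with t h1 h2
  rw [h1, h2, RCLike.inner_apply, RCLike.inner_apply, map_mul, Complex.conj_ofReal]
  ring

/-- The operator. -/
def opT (K : C(UnitAddTorus ι, ℝ)) : l2 (ι → ℤ) →L[ℂ] l2 (ι → ℤ) :=
  ((mFourierBasis (d := ι)).repr.toContinuousLinearEquiv : (Lp ℂ 2 (volume : Measure (UnitAddTorus ι))) →L[ℂ] l2 (ι → ℤ)).comp
    ((mulC K).comp ((mFourierBasis (d := ι)).repr.symm.toContinuousLinearEquiv :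
      l2 (ι → ℤ) →L[ℂ] (Lp ℂ 2 (volume : Measure (UnitAddTorus ι)))))

lemma opT_apply (K : C(UnitAddTorus ι, ℝ)) (u : l2 (ι → ℤ)) :
    opT K u = (mFourierBasis (d := ι)).repr (mulC K ((mFourierBasis (d := ι)).repr.symm u)) := rfl

lemma opT_coeff (K : C(UnitAddTorus ι, ℝ)) (u : l2 (ι → ℤ)) (x : ι → ℤ) :
    opT K u x = ∑' y, hop K (x - y) * u y := by
  set g : (Lp ℂ 2 (volume : Measure (UnitAddTorus ι))) := (mFourierBasis (d := ι)).repr.symm u with hg
  have hu : ∀ y, u y = mFourierCoeff g y := by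
    intro y
    rw [← mFourierBasis_repr, hg, LinearIsometryEquiv.apply_symm_apply]
  set F : C(UnitAddTorus ι, ℂ) :=
    ⟨fun t => (K t : ℂ) * mFourier x t, by fun_prop⟩ with hF
  have hsum := hasSum_prod_mFourierCoeff (F.toLp 2 (volume : Measure (UnitAddTorus ι)) ℂ) g
  have h1 : opT K u x = ∫ t, conj ((F.toLp 2 (volume : Measure (UnitAddTorus ι)) ℂ) t) * g t := by
    rw [opT_apply, mFourierBasis_repr]
    unfold mFourierCoeff
    apply integral_congr_ae
    filter_upwards [mulC_coe K g, F.coeFn_toLp (p := 2) (𝕜 := ℂ)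
      (volume : Measure (UnitAddTorus ι))] with t h2 h3
    rw [h2, h3, mFourier_neg, smul_eq_mul, hF]
    simp only [ContinuousMap.coe_mk, map_mul, Complex.conj_ofReal]
    ring
  rw [h1, ← hsum.tsum_eq]
  refine tsum_congr fun y => ?_
  rw [hu y]
  congr 1
  rw [mFourierCoeff_toLp]
  unfold hop mFourierCoeff
  rw [← integral_conj]
  apply integral_congr_ae
  refine Filter.Eventually.of_forall fun t => ?_
  simp only [hF, ContinuousMap.coe_mk, smul_eq_mul, map_mul, Complex.conj_ofReal]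
  rw [mFourier_neg, Complex.conj_conj, ← mFourier_neg,
    show -(x - y) = y + -x by abel, mFourier_add]
  ring

theorem main : S_T1 := by
  intro ι _ K
  refine ⟨opT K, ?_, ?_, opT_coeff K⟩
  · rw [ContinuousLinearMap.isSelfAdjoint_iff_isSymmetric]
    intro u w
    show inner ℂ (opT K u) w = inner ℂ u (opT K w)
    rw [opT_apply, opT_apply, LinearIsometryEquiv.inner_map_eq_flip, mulC_symm,
      ← LinearIsometryEquiv.inner_map_map (mFourierBasis (d := ι)).repr,
      LinearIsometryEquiv.apply_symm_apply]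
  · refine ContinuousLinearMap.opNorm_le_bound _ (norm_nonneg _) fun u => ?_
    rw [opT_apply, LinearIsometryEquiv.norm_map]
    refine (norm_mulL_le K _).trans ?_
    rw [LinearIsometryEquiv.norm_map]

end

end Pool.Agent.W196.GKT1
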